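import Mathlib
import Pool.Agent.H24.SgDefs
import Pool.Agent.H24.SgAlg

set_option autoImplicit false
open Pool.Agent.H24 Pool.Agent.H24.Sg

namespace Pool.Agent.Results.MP_c05c30_lc.NotHomog

theorem result :
    ¬ ∀ (S P : Type) [Semigroup S] [Field P],
      SgHomog S → FieldHomog P → AlgHomog P (MonoidAlgebra P S) :=
  fun h => not_algHomog (h _ _ sgHomog fieldHomog)

end Pool.Agent.Results.MP_c05c30_lc.NotHomog
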